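import Pool.Agent.Helper26.LC.Defs

/-!
# LC-T1: the boundary of the manifold corresponds to the boundary complex
-/

set_option autoImplicit false

namespace Pool.Agent.Helper26.LC

open scoped Manifold

/-- statement of T0a -/
def NoHalf : Prop := ∀ (U : Set (EuclideanSpace ℝ (Fin 4))) (_ : IsOpen U)
    (N : Set (EuclideanSpace ℝ (Fin 4))) (_ : IsOpen N) (q : EuclideanSpace ℝ (Fin 4))
    (_ : q ∈ N) (_ : q 0 = 0),
    IsEmpty (U ≃ₜ (N ∩ {x | 0 ≤ x 0} : Set (EuclideanSpace ℝ (Fin 4))))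

/-- statement of T0b -/
def NoInj : Prop := ∀ (U : Set (EuclideanSpace ℝ (Fin 3))) (_ : IsOpen U) (_ : U.Nonempty)
    (f : EuclideanSpace ℝ (Fin 3) → EuclideanSpace ℝ (Fin 2)) (_ : ContinuousOn f U),
    ¬ Set.InjOn f U

section types

variable {Y Z : Type*} [TopologicalSpace Y] [TopologicalSpace Z]

/-- points with a Euclidean neighbourhood -/
def TypeI (y : Y) : Prop :=
  ∃ U : Set Y, IsOpen U ∧ y ∈ U ∧ ∃ O : Set (EuclideanSpace ℝ (Fin 4)), IsOpen O ∧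
    Nonempty (U ≃ₜ O)

/-- points with a half space neighbourhood, lying on the boundary -/
def TypeB (y : Y) : Prop :=
  ∃ (U : Set Y) (hy : y ∈ U), IsOpen U ∧ ∃ N : Set (EuclideanSpace ℝ (Fin 4)), IsOpen N ∧
    ∃ e : U ≃ₜ (N ∩ {x | 0 ≤ x 0} : Set (EuclideanSpace ℝ (Fin 4))),
      ((e ⟨y, hy⟩ : (N ∩ {x | 0 ≤ x 0} : Set (EuclideanSpace ℝ (Fin 4)))) :
        EuclideanSpace ℝ (Fin 4)) 0 = 0

/-- restriction of a homeomorphism between subsets -/
theorem shrink (U : Set Y) (B : Set Z) (e : U ≃ₜ B) (U' : Set Y) (hU' : IsOpen U') :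
    ∃ N' : Set Z, IsOpen N' ∧ ∃ e' : (U ∩ U' : Set Y) ≃ₜ (B ∩ N' : Set Z),
      ∀ (y : Y) (hy : y ∈ U ∩ U'), ((e' ⟨y, hy⟩ : (B ∩ N' : Set Z)) : Z) = e ⟨y, hy.1⟩ := by
  have h1 : IsOpen ((fun b : B => ((e.symm b : U) : Y)) ⁻¹' U') :=
    hU'.preimage (continuous_subtype_val.comp e.symm.continuous)
  obtain ⟨N', hN', hN⟩ := isOpen_induced_iff.1 h1
  have hmem : ∀ b : B, (b : Z) ∈ N' ↔ ((e.symm b : U) : Y) ∈ U' := by
    intro b
    have := Set.ext_iff.1 hN b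
    exact this
  refine ⟨N', hN', ?_, ?_⟩
  · exact
      { toFun := fun y => ⟨e ⟨y, y.2.1⟩, (e ⟨y, y.2.1⟩).2, (hmem _).2 (by
          rw [Homeomorph.symm_apply_apply]
          exact y.2.2)⟩
        invFun := fun b => ⟨e.symm ⟨b, b.2.1⟩, (e.symm ⟨b, b.2.1⟩).2, (hmem ⟨b, b.2.1⟩).1 b.2.2⟩
        left_inv := fun y => by
          apply Subtype.ext
          simp
        right_inv := fun b => by
          apply Subtype.ext
          simp
        continuous_toFun := by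
          apply Continuous.subtype_mk
          exact continuous_subtype_val.comp (e.continuous.comp
            (Continuous.subtype_mk continuous_subtype_val _))
        continuous_invFun := by
          apply Continuous.subtype_mk
          exact continuous_subtype_val.comp (e.symm.continuous.comp
            (Continuous.subtype_mk continuous_subtype_val _)) }
  · intro y hy
    rfl

theorem not_typeI_of_typeB (hno : NoHalf) {y : Y} (h1 : TypeI y) (h2 : TypeB y) : False := by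
  obtain ⟨U, hU, hyU, O, hO, ⟨e⟩⟩ := h1
  obtain ⟨U', hyU', hU', N, hN, e', he'⟩ := h2
  obtain ⟨N1, hN1, e1, -⟩ := shrink U O e U' hU'
  obtain ⟨N2, hN2, e2, he2⟩ := shrink U' _ e' U hU
  have h3 : ((N ∩ {x | 0 ≤ x 0}) ∩ N2 : Set (EuclideanSpace ℝ (Fin 4))) =
      (N ∩ N2) ∩ {x | 0 ≤ x 0} := by
    ext x
    simp only [Set.mem_inter_iff]
    tauto
  have e3 : (O ∩ N1 : Set (EuclideanSpace ℝ (Fin 4))) ≃ₜ
      ((N ∩ N2) ∩ {x | 0 ≤ x 0} : Set (EuclideanSpace ℝ (Fin 4))) :=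
    (e1.symm.trans (Homeomorph.setCongr (Set.inter_comm U U'))).trans
      (e2.trans (Homeomorph.setCongr h3))
  set q : EuclideanSpace ℝ (Fin 4) :=
    ((e' ⟨y, hyU'⟩ : (N ∩ {x | 0 ≤ x 0} : Set (EuclideanSpace ℝ (Fin 4)))) :
      EuclideanSpace ℝ (Fin 4)) with hq
  have hq2 : q ∈ N2 := by
    rw [hq, ← he2 y ⟨hyU', hyU⟩]
    exact (e2 ⟨y, hyU', hyU⟩).2.2
  exact (hno (O ∩ N1) (hO.inter hN1) (N ∩ N2) (hN.inter hN2) q
    ⟨(e' ⟨y, hyU'⟩).2.1, hq2⟩ he').false e3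

theorem typeI_open {y : Y} (h : TypeI y) : ∃ U : Set Y, IsOpen U ∧ y ∈ U ∧ ∀ z ∈ U, TypeI z := by
  obtain ⟨U, hU, hyU, O, hO, e⟩ := h
  exact ⟨U, hU, hyU, fun z hz => ⟨U, hU, hz, O, hO, e⟩⟩

theorem TypeI.map (h : Y ≃ₜ Z) {y : Y} (hy : TypeI y) : TypeI (h y) := by
  obtain ⟨U, hU, hyU, O, hO, ⟨e⟩⟩ := hy
  refine ⟨h '' U, h.isOpenMap U hU, ⟨y, hyU, rfl⟩, O, hO, ⟨?_⟩⟩
  exact (h.image U).symm.trans e

theorem TypeB.map (h : Y ≃ₜ Z) {y : Y} (hy : TypeB y) : TypeB (h y) := by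
  obtain ⟨U, hyU, hU, N, hN, e, he⟩ := hy
  refine ⟨h '' U, ⟨y, hyU, rfl⟩, h.isOpenMap U hU, N, hN, (h.image U).symm.trans e, ?_⟩
  have h1 : (h.image U).symm ⟨h y, ⟨y, hyU, rfl⟩⟩ = ⟨y, hyU⟩ := by
    rw [Homeomorph.symm_apply_eq]
    rfl
  rw [Homeomorph.trans_apply, h1]
  exact he

end types

section manifold

variable {W : Type*} [TopologicalSpace W] [ChartedSpace (EuclideanHalfSpace 4) W]

theorem chart_nbhd (w : W) : ∃ (U : Set W) (hw : w ∈ U), IsOpen U ∧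
    ∃ N : Set (EuclideanSpace ℝ (Fin 4)), IsOpen N ∧
    ∃ e : U ≃ₜ (N ∩ {x | 0 ≤ x 0} : Set (EuclideanSpace ℝ (Fin 4))),
      ((e ⟨w, hw⟩ : (N ∩ {x | 0 ≤ x 0} : Set (EuclideanSpace ℝ (Fin 4)))) :
        EuclideanSpace ℝ (Fin 4)) = extChartAt (𝓡∂ 4) w w := by
  let c := chartAt (EuclideanHalfSpace 4) w
  obtain ⟨N, hN, hNt⟩ := isOpen_induced_iff.1 c.open_target
  have hmem : ∀ x : EuclideanHalfSpace 4, x.val ∈ N ↔ x ∈ c.target := fun x => Set.ext_iff.1 hNt x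
  let e1 : c.target ≃ₜ (N ∩ {x | 0 ≤ x 0} : Set (EuclideanSpace ℝ (Fin 4))) :=
    { toFun := fun x => ⟨x.1.val, (hmem _).2 x.2, x.1.2⟩
      invFun := fun x => ⟨⟨x.1, x.2.2⟩, (hmem _).1 x.2.1⟩
      left_inv := fun x => rfl
      right_inv := fun x => rfl
      continuous_toFun := by
        apply Continuous.subtype_mk
        exact continuous_subtype_val.comp continuous_subtype_val
      continuous_invFun := by
        apply Continuous.subtype_mk
        apply Continuous.subtype_mk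
        exact continuous_subtype_val }
  exact ⟨c.source, mem_chart_source _ w, c.open_source, N, hN,
    c.toHomeomorphSourceTarget.trans e1, rfl⟩

theorem typeB_of_boundary {w : W} (h : (𝓡∂ 4).IsBoundaryPoint w) : TypeB w := by
  obtain ⟨U, hw, hU, N, hN, e, he⟩ := chart_nbhd w
  refine ⟨U, hw, hU, N, hN, e, ?_⟩
  rw [he]
  rw [ModelWithCorners.IsBoundaryPoint, frontier_range_modelWithCornersEuclideanHalfSpace] at h
  exact h.symm

theorem typeI_of_interior {w : W} (h : (𝓡∂ 4).IsInteriorPoint w) : TypeI w := by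
  obtain ⟨U, hw, hU, N, hN, e, he⟩ := chart_nbhd w
  rw [ModelWithCorners.IsInteriorPoint, interior_range_modelWithCornersEuclideanHalfSpace] at h
  have hopen : IsOpen {x : EuclideanSpace ℝ (Fin 4) | 0 < x 0} :=
    isOpen_lt continuous_const (by fun_prop)
  obtain ⟨U', hU', e', he'⟩ := shrink _ U e.symm {x | 0 < x 0} hopen
  refine ⟨U ∩ U', hU.inter hU', ⟨hw, ?_⟩, N ∩ {x | 0 < x 0}, hN.inter hopen, ⟨?_⟩⟩
  · have h1 := he' (extChartAt (𝓡∂ 4) w w) ⟨by rw [← he]; exact (e ⟨w, hw⟩).2, h⟩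
    have h2 : ((e.symm ⟨extChartAt (𝓡∂ 4) w w, by rw [← he]; exact (e ⟨w, hw⟩).2⟩ : U) : W) = w := by
      have h3 : (⟨extChartAt (𝓡∂ 4) w w, by rw [← he]; exact (e ⟨w, hw⟩).2⟩ :
          (N ∩ {x | 0 ≤ x 0} : Set (EuclideanSpace ℝ (Fin 4)))) = e ⟨w, hw⟩ := Subtype.ext he.symm
      rw [h3, Homeomorph.symm_apply_apply]
    rw [h2] at h1
    rw [← h1]
    exact (e' _).2.2
  · have h3 : ((N ∩ {x | 0 ≤ x 0}) ∩ {x | 0 < x 0} : Set (EuclideanSpace ℝ (Fin 4))) =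
        N ∩ {x | 0 < x 0} := by
      ext x
      simp only [Set.mem_inter_iff, Set.mem_ofPred_eq]
      constructor
      · rintro ⟨⟨h1, -⟩, h2⟩
        exact ⟨h1, h2⟩
      · rintro ⟨h1, h2⟩
        exact ⟨⟨h1, h2.le⟩, h2⟩
    exact e'.symm.trans (Homeomorph.setCongr h3)

theorem boundary_iff (hno : NoHalf) (w : W) : (𝓡∂ 4).IsBoundaryPoint w ↔ TypeB w := by
  refine ⟨typeB_of_boundary, fun h => ?_⟩
  rcases (𝓡∂ 4).isInteriorPoint_or_isBoundaryPoint w with h1 | h1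
  · exact (not_typeI_of_typeB hno (typeI_of_interior h1) h).elim
  · exact h1

end manifold

end Pool.Agent.Helper26.LC
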