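import Pool.Agent.Helper47.LC.LCT1

/-!
# LC-T1: charts of the complex
-/

set_option autoImplicit false

namespace Pool.Agent.Helper26.LC

theorem mkHomeo {X Z : Type*} [TopologicalSpace X] [TopologicalSpace Z] (K : Set X) (U : Set K)
    (B : Set Z) (f : X → Z) (g : Z → X) (hf : Continuous f) (hg : Continuous g)
    (hAB : ∀ p : K, p ∈ U → f p ∈ B) (hBK : ∀ z ∈ B, g z ∈ K)
    (hBA : ∀ z (hz : z ∈ B), (⟨g z, hBK z hz⟩ : K) ∈ U)
    (h1 : ∀ p : K, p ∈ U → g (f p) = p) (h2 : ∀ z ∈ B, f (g z) = z) :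
    ∃ e : U ≃ₜ B, ∀ (p : K) (hp : p ∈ U), ((e ⟨p, hp⟩ : B) : Z) = f p :=
  ⟨{ toFun := fun p => ⟨f p.1, hAB p.1 p.2⟩
     invFun := fun z => ⟨⟨g z, hBK z z.2⟩, hBA z z.2⟩
     left_inv := fun p => Subtype.ext (Subtype.ext (h1 p.1 p.2))
     right_inv := fun z => Subtype.ext (h2 z z.2)
     continuous_toFun := by
       apply Continuous.subtype_mk
       exact hf.comp (continuous_subtype_val.comp continuous_subtype_val)
     continuous_invFun := by
       apply Continuous.subtype_mk
       apply Continuous.subtype_mk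
       exact hg.comp continuous_subtype_val }, fun _ _ => rfl⟩

variable {V : Type*} [DecidableEq V]

section one

variable (a : V) (t : Fin 4 → V)

/-- the coordinates -/
noncomputable def fA (p : V → ℝ) : EuclideanSpace ℝ (Fin 4) := !₂[p a, p (t 1), p (t 2), p (t 3)]

/-- the inverse of the coordinates -/
noncomputable def gA (y : EuclideanSpace ℝ (Fin 4)) : V → ℝ :=
  Pi.single a (y 0) + Pi.single (t 1) (y 1) + Pi.single (t 2) (y 2) + Pi.single (t 3) (y 3) +
    Pi.single (t 0) (1 - y 0 - y 1 - y 2 - y 3)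

omit [DecidableEq V] in
theorem continuous_fA : Continuous (fA a t) := by
  unfold fA
  apply (PiLp.continuous_toLp 2 _).comp
  apply continuous_pi
  intro i
  fin_cases i <;> simp <;> fun_prop

theorem continuous_single (v : V) (f : EuclideanSpace ℝ (Fin 4) → ℝ) (hf : Continuous f) :
    Continuous fun y => (Pi.single v (f y) : V → ℝ) := by
  apply continuous_pi
  intro w
  by_cases h : w = v
  · subst h
    simpa using hf
  · simp only [Pi.single_eq_of_ne h]
    exact continuous_const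

theorem continuous_gA : Continuous (gA a t) := by
  unfold gA
  refine ((((continuous_single _ _ ?_).add (continuous_single _ _ ?_)).add
    (continuous_single _ _ ?_)).add (continuous_single _ _ ?_)).add (continuous_single _ _ ?_) <;>
  fun_prop

variable {a t} (ht : Function.Injective t) (ha : ∀ i, t i ≠ a)

include ht ha

theorem gA_a (y : EuclideanSpace ℝ (Fin 4)) : gA a t y a = y 0 := by
  simp only [gA, Pi.add_apply, Pi.single_eq_same, Pi.single_eq_of_ne (ha _).symm]
  ring

theorem gA_1 (y : EuclideanSpace ℝ (Fin 4)) : gA a t y (t 1) = y 1 := by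
  simp only [gA, Pi.add_apply, Pi.single_eq_same, Pi.single_eq_of_ne (ha _),
    Pi.single_eq_of_ne (ht.ne (show (1 : Fin 4) ≠ 2 by decide)),
    Pi.single_eq_of_ne (ht.ne (show (1 : Fin 4) ≠ 3 by decide)),
    Pi.single_eq_of_ne (ht.ne (show (1 : Fin 4) ≠ 0 by decide))]
  ring

theorem gA_2 (y : EuclideanSpace ℝ (Fin 4)) : gA a t y (t 2) = y 2 := by
  simp only [gA, Pi.add_apply, Pi.single_eq_same, Pi.single_eq_of_ne (ha _),
    Pi.single_eq_of_ne (ht.ne (show (2 : Fin 4) ≠ 1 by decide)),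
    Pi.single_eq_of_ne (ht.ne (show (2 : Fin 4) ≠ 3 by decide)),
    Pi.single_eq_of_ne (ht.ne (show (2 : Fin 4) ≠ 0 by decide))]
  ring

theorem gA_3 (y : EuclideanSpace ℝ (Fin 4)) : gA a t y (t 3) = y 3 := by
  simp only [gA, Pi.add_apply, Pi.single_eq_same, Pi.single_eq_of_ne (ha _),
    Pi.single_eq_of_ne (ht.ne (show (3 : Fin 4) ≠ 1 by decide)),
    Pi.single_eq_of_ne (ht.ne (show (3 : Fin 4) ≠ 2 by decide)),
    Pi.single_eq_of_ne (ht.ne (show (3 : Fin 4) ≠ 0 by decide))]
  ring

theorem gA_0 (y : EuclideanSpace ℝ (Fin 4)) :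
    gA a t y (t 0) = 1 - y 0 - y 1 - y 2 - y 3 := by
  simp only [gA, Pi.add_apply, Pi.single_eq_same, Pi.single_eq_of_ne (ha _),
    Pi.single_eq_of_ne (ht.ne (show (0 : Fin 4) ≠ 1 by decide)),
    Pi.single_eq_of_ne (ht.ne (show (0 : Fin 4) ≠ 2 by decide)),
    Pi.single_eq_of_ne (ht.ne (show (0 : Fin 4) ≠ 3 by decide))]
  ring

omit ht ha in
theorem gA_ne (y : EuclideanSpace ℝ (Fin 4)) {v : V} (h : v ∉ insert a (Finset.univ.image t)) :
    gA a t y v = 0 := by
  rw [Finset.mem_insert, not_or] at h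
  have h1 : ∀ i, v ≠ t i := fun i hi => h.2 (Finset.mem_image.2 ⟨i, Finset.mem_univ _, hi.symm⟩)
  simp only [gA, Pi.add_apply, Pi.single_eq_of_ne h.1, Pi.single_eq_of_ne (h1 _)]
  ring

omit ht ha in
theorem sum_gA [Fintype V] (y : EuclideanSpace ℝ (Fin 4)) : ∑ v, gA a t y v = 1 := by
  simp only [gA, Pi.add_apply, Finset.sum_add_distrib, Finset.sum_pi_single', Finset.mem_univ,
    if_true]
  ring

theorem eq_gA [Fintype V] (p : V → ℝ) (hp : ∀ v, p v ≠ 0 → v ∈ insert a (Finset.univ.image t))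
    (hs : ∑ v, p v = 1) : gA a t (fA a t p) = p := by
  have h0 : fA a t p 0 = p a := rfl
  have h1 : fA a t p 1 = p (t 1) := rfl
  have h2 : fA a t p 2 = p (t 2) := rfl
  have h3 : fA a t p 3 = p (t 3) := rfl
  have hdec : p = Pi.single a (p a) + Pi.single (t 1) (p (t 1)) + Pi.single (t 2) (p (t 2)) +
      Pi.single (t 3) (p (t 3)) + Pi.single (t 0) (p (t 0)) := by
    ext v
    by_cases hv : v ∈ insert a (Finset.univ.image t)
    · rw [Finset.mem_insert] at hv
      rcases hv with rfl | hv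
      · simp only [Pi.add_apply, Pi.single_eq_same, Pi.single_eq_of_ne (ha _).symm]
        ring
      · obtain ⟨i, -, rfl⟩ := Finset.mem_image.1 hv
        simp only [Pi.add_apply, Pi.single_eq_of_ne (ha _)]
        have hne : ∀ i j : Fin 4, i ≠ j → ∀ c : ℝ, (Pi.single (t j) c : V → ℝ) (t i) = 0 :=
          fun i j hij c => by rw [Pi.single_eq_of_ne (ht.ne hij)]
        fin_cases i
        · simp only [Fin.zero_eta, Pi.single_eq_same]
          rw [hne 0 1 (by decide), hne 0 2 (by decide), hne 0 3 (by decide)]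
          ring
        · simp only [Fin.mk_one, Pi.single_eq_same]
          rw [hne 1 2 (by decide), hne 1 3 (by decide), hne 1 0 (by decide)]
          ring
        · simp only [Fin.reduceFinMk, Pi.single_eq_same]
          rw [hne 2 1 (by decide), hne 2 3 (by decide), hne 2 0 (by decide)]
          ring
        · simp only [Fin.reduceFinMk, Pi.single_eq_same]
          rw [hne 3 1 (by decide), hne 3 2 (by decide), hne 3 0 (by decide)]
          ring
    · have h4 : p v = 0 := by
        by_contra h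
        exact hv (hp v h)
      rw [Finset.mem_insert, not_or] at hv
      have h5 : ∀ i, v ≠ t i := fun i hi => hv.2 (Finset.mem_image.2 ⟨i, Finset.mem_univ _, hi.symm⟩)
      simp only [Pi.add_apply, Pi.single_eq_of_ne hv.1, Pi.single_eq_of_ne (h5 _), h4]
      ring
  have hsum : p a + p (t 1) + p (t 2) + p (t 3) + p (t 0) = 1 := by
    rw [← hs]
    conv_rhs => rw [hdec]
    simp only [Pi.add_apply, Finset.sum_add_distrib, Finset.sum_pi_single', Finset.mem_univ,
      if_true]
  rw [gA, h0, h1, h2, h3]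
  have h4 : 1 - p a - p (t 1) - p (t 2) - p (t 3) = p (t 0) := by linarith
  rw [h4]
  exact hdec.symm

omit ht ha in
theorem gA_nonneg {y : EuclideanSpace ℝ (Fin 4)} (h0 : 0 ≤ y 0) (h1 : 0 ≤ y 1) (h2 : 0 ≤ y 2)
    (h3 : 0 ≤ y 3) (h4 : 0 ≤ 1 - y 0 - y 1 - y 2 - y 3) (v : V) : 0 ≤ gA a t y v := by
  have hs : ∀ (w : V) (c : ℝ), 0 ≤ c → 0 ≤ (Pi.single w c : V → ℝ) v := by
    intro w c hc
    by_cases h : v = w
    · subst h
      simpa using hc
    · rw [Pi.single_eq_of_ne h]
  have := hs a _ h0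
  have := hs (t 1) _ h1
  have := hs (t 2) _ h2
  have := hs (t 3) _ h3
  have := hs (t 0) _ h4
  simp only [gA, Pi.add_apply]
  linarith

end one

end Pool.Agent.Helper26.LC
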