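import Pool.Agent.Helper47.LC.LCT1b

/-!
# LC-T1: types of the points of the complex
-/

set_option autoImplicit false

namespace Pool.Agent.Helper26.LC

variable {V : Type*} [DecidableEq V] [Fintype V]

theorem isOpen_lt0 (f : EuclideanSpace ℝ (Fin 4) → ℝ) (hf : Continuous f) :
    IsOpen {y | 0 < f y} := isOpen_lt continuous_const hf

/-- the set of points which are positive on a set of vertices is open -/
theorem isOpen_pos (F : Finset (Finset V)) (τ : Finset V) :
    IsOpen {p : Space F | ∀ v ∈ τ, 0 < (p : V → ℝ) v} := by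
  have h1 : {p : Space F | ∀ v ∈ τ, 0 < (p : V → ℝ) v} =
      ⋂ v ∈ τ, {p : Space F | 0 < (p : V → ℝ) v} := by
    ext p
    simp
  rw [h1]
  apply isOpen_biInter_finset
  intro v _
  exact isOpen_lt continuous_const ((continuous_apply v).comp continuous_subtype_val)

theorem exists_enum (τ : Finset V) (h : τ.card = 4) :
    ∃ t : Fin 4 → V, Function.Injective t ∧ Finset.univ.image t = τ := by
  let e := (τ.equivFinOfCardEq h).symm
  refine ⟨fun i => e i, fun i j hij => e.injective (Subtype.ext hij), ?_⟩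
  ext v
  rw [Finset.mem_image]
  constructor
  · rintro ⟨i, -, rfl⟩
    exact (e i).2
  · intro hv
    obtain ⟨i, hi⟩ := e.surjective ⟨v, hv⟩
    exact ⟨i, Finset.mem_univ _, by rw [hi]⟩

theorem exists_apex {τ σ : Finset V} (h : τ ⊆ σ) (h4 : τ.card = 4) (h5 : σ.card = 5) :
    ∃ a, a ∉ τ ∧ σ = insert a τ := by
  have h1 : (σ \ τ).card = 1 := by
    rw [Finset.card_sdiff_of_subset h, h4, h5]
  obtain ⟨a, ha⟩ := Finset.card_eq_one.1 h1
  have ha' : a ∈ σ \ τ := by rw [ha]; exact Finset.mem_singleton_self a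
  rw [Finset.mem_sdiff] at ha'
  refine ⟨a, ha'.2, ?_⟩
  rw [← Finset.sdiff_union_of_subset h, ha]
  rfl

/-- supports of points of the complex -/
theorem supp_subset {F : Finset (Finset V)} (p : Space F) :
    ∃ σ ∈ F, ∀ v, (p : V → ℝ) v ≠ 0 → v ∈ σ := p.2.2.2

/-- (1) points in the interior of a facet -/
theorem typeI_facet (F : Finset (Finset V)) (hcard : ∀ σ ∈ F, σ.card = 5) (p : Space F)
    (σ : Finset V) (hσ : σ ∈ F) (hp : ∀ v ∈ σ, 0 < (p : V → ℝ) v) : TypeI p := by
  obtain ⟨τ, hτσ, hτ⟩ := Finset.exists_subset_card_eq (show 4 ≤ σ.card by rw [hcard σ hσ]; norm_num)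
  obtain ⟨t, ht, htτ⟩ := exists_enum τ hτ
  obtain ⟨a, haτ, hστ⟩ := exists_apex hτσ hτ (hcard σ hσ)
  rw [← htτ] at hστ haτ
  have ha : ∀ i, t i ≠ a := fun i hi => haτ (Finset.mem_image.2 ⟨i, Finset.mem_univ _, hi⟩)
  have hmem : ∀ v, v ∈ σ ↔ v = a ∨ ∃ i, t i = v := by
    intro v
    rw [hστ, Finset.mem_insert, Finset.mem_image]
    simp
  let B : Set (EuclideanSpace ℝ (Fin 4)) :=
    {y | 0 < y 0 ∧ 0 < y 1 ∧ 0 < y 2 ∧ 0 < y 3 ∧ 0 < 1 - y 0 - y 1 - y 2 - y 3}
  have hB : IsOpen B := by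
    exact (isOpen_lt0 (fun y => y 0) (by fun_prop)).and ((isOpen_lt0 (fun y => y 1) (by fun_prop)).and
      ((isOpen_lt0 (fun y => y 2) (by fun_prop)).and ((isOpen_lt0 (fun y => y 3) (by fun_prop)).and
      (isOpen_lt0 (fun y => 1 - y 0 - y 1 - y 2 - y 3) (by fun_prop)))))
  have hsupp : ∀ q : Space F, (∀ v ∈ σ, 0 < (q : V → ℝ) v) →
      ∀ v, (q : V → ℝ) v ≠ 0 → v ∈ insert a (Finset.univ.image t) := by
    intro q hq v hv
    obtain ⟨σ', hσ', hs⟩ := supp_subset q
    have h1 : σ ⊆ σ' := fun w hw => hs w (hq w hw).ne'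
    have h2 : σ = σ' := Finset.eq_of_subset_of_card_le h1 (by rw [hcard σ hσ, hcard σ' hσ'])
    rw [← hστ, h2]
    exact hs v hv
  have hga : ∀ z ∈ B, gA a t z ∈ Space F := by
    rintro z ⟨h0, h1, h2, h3, h4⟩
    refine ⟨gA_nonneg h0.le h1.le h2.le h3.le h4.le, sum_gA z, σ, hσ, ?_⟩
    intro v hv
    by_contra hvσ
    exact hv (gA_ne z (by rw [← hστ]; exact hvσ))
  obtain ⟨e, -⟩ := mkHomeo (Space F) {q : Space F | ∀ v ∈ σ, 0 < (q : V → ℝ) v} B (fA a t) (gA a t)
    (continuous_fA a t) (continuous_gA a t) (by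
      intro q hq
      have hs := (eq_gA ht ha _ (hsupp q hq) q.2.2.1)
      have hpos : ∀ i, 0 < (q : V → ℝ) (t i) := fun i => hq _ ((hmem _).2 (Or.inr ⟨i, rfl⟩))
      refine ⟨hq a ((hmem _).2 (Or.inl rfl)), hpos 1, hpos 2, hpos 3, ?_⟩
      have h1 := gA_0 ht ha (fA a t q)
      rw [hs] at h1
      rw [← h1]
      exact hpos 0) hga (by
      rintro z ⟨h0, h1, h2, h3, h4⟩ v hv
      change 0 < gA a t z v
      rcases (hmem v).1 hv with rfl | ⟨i, rfl⟩
      · rw [gA_a ht ha]; exact h0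
      · fin_cases i
        · exact (gA_0 ht ha z).symm ▸ h4
        · exact (gA_1 ht ha z).symm ▸ h1
        · exact (gA_2 ht ha z).symm ▸ h2
        · exact (gA_3 ht ha z).symm ▸ h3) (by
      intro q hq
      exact eq_gA ht ha _ (hsupp q hq) q.2.2.1) (by
      rintro z -
      ext i
      fin_cases i
      · exact gA_a ht ha z
      · exact gA_1 ht ha z
      · exact gA_2 ht ha z
      · exact gA_3 ht ha z)
  exact ⟨_, isOpen_pos F σ, hp, B, hB, ⟨e⟩⟩

/-- (3) points in the interior of a boundary ridge -/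
theorem typeB_ridge (F : Finset (Finset V)) (hcard : ∀ σ ∈ F, σ.card = 5) (p : Space F)
    (τ : Finset V) (hτ : τ.card = 4) (σ : Finset V) (hσ : σ ∈ F) (hτσ : τ ⊆ σ)
    (huniq : ∀ σ' ∈ F, τ ⊆ σ' → σ' = σ) (hp : ∀ v, 0 < (p : V → ℝ) v ↔ v ∈ τ) : TypeB p := by
  obtain ⟨t, ht, htτ⟩ := exists_enum τ hτ
  obtain ⟨a, haτ', hστ'⟩ := exists_apex hτσ hτ (hcard σ hσ)
  have hστ := hστ'
  have haτ := haτ'
  rw [← htτ] at hστ haτ
  have ha : ∀ i, t i ≠ a := fun i hi => haτ (Finset.mem_image.2 ⟨i, Finset.mem_univ _, hi⟩)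
  have hmemτ : ∀ v, v ∈ τ ↔ ∃ i, t i = v := by
    intro v
    rw [← htτ, Finset.mem_image]
    simp
  let N : Set (EuclideanSpace ℝ (Fin 4)) :=
    {y | 0 < y 1 ∧ 0 < y 2 ∧ 0 < y 3 ∧ 0 < 1 - y 0 - y 1 - y 2 - y 3}
  have hN : IsOpen N := by
    exact (isOpen_lt0 (fun y => y 1) (by fun_prop)).and
      ((isOpen_lt0 (fun y => y 2) (by fun_prop)).and ((isOpen_lt0 (fun y => y 3) (by fun_prop)).and
      (isOpen_lt0 (fun y => 1 - y 0 - y 1 - y 2 - y 3) (by fun_prop))))
  have hsupp : ∀ q : Space F, (∀ v ∈ τ, 0 < (q : V → ℝ) v) →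
      ∀ v, (q : V → ℝ) v ≠ 0 → v ∈ insert a (Finset.univ.image t) := by
    intro q hq v hv
    obtain ⟨σ', hσ', hs⟩ := supp_subset q
    have h1 : τ ⊆ σ' := fun w hw => hs w (hq w hw).ne'
    rw [← hστ, ← huniq σ' hσ' h1]
    exact hs v hv
  have hga : ∀ z ∈ (N ∩ {x | 0 ≤ x 0} : Set (EuclideanSpace ℝ (Fin 4))), gA a t z ∈ Space F := by
    rintro z ⟨⟨h1, h2, h3, h4⟩, h0⟩
    refine ⟨gA_nonneg h0 h1.le h2.le h3.le h4.le, sum_gA z, σ, hσ, ?_⟩
    intro v hv
    by_contra hvσ
    exact hv (gA_ne z (by rw [← hστ]; exact hvσ))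
  have hpτ : ∀ v ∈ τ, 0 < (p : V → ℝ) v := fun v hv => (hp v).2 hv
  obtain ⟨e, he⟩ := mkHomeo (Space F) {q : Space F | ∀ v ∈ τ, 0 < (q : V → ℝ) v}
    (N ∩ {x | 0 ≤ x 0}) (fA a t) (gA a t)
    (continuous_fA a t) (continuous_gA a t) (by
      intro q hq
      have hs := (eq_gA ht ha _ (hsupp q hq) q.2.2.1)
      have hpos : ∀ i, 0 < (q : V → ℝ) (t i) := fun i => hq _ ((hmemτ _).2 ⟨i, rfl⟩)
      refine ⟨⟨hpos 1, hpos 2, hpos 3, ?_⟩, q.2.1 a⟩
      have h1 := gA_0 ht ha (fA a t q)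
      rw [hs] at h1
      rw [← h1]
      exact hpos 0) hga (by
      rintro z ⟨⟨h1, h2, h3, h4⟩, h0⟩ v hv
      change 0 < gA a t z v
      obtain ⟨i, rfl⟩ := (hmemτ v).1 hv
      fin_cases i
      · exact (gA_0 ht ha z).symm ▸ h4
      · exact (gA_1 ht ha z).symm ▸ h1
      · exact (gA_2 ht ha z).symm ▸ h2
      · exact (gA_3 ht ha z).symm ▸ h3) (by
      intro q hq
      exact eq_gA ht ha _ (hsupp q hq) q.2.2.1) (by
      rintro z -
      ext i
      fin_cases i
      · exact gA_a ht ha z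
      · exact gA_1 ht ha z
      · exact gA_2 ht ha z
      · exact gA_3 ht ha z)
  refine ⟨{q : Space F | ∀ v ∈ τ, 0 < (q : V → ℝ) v}, hpτ, isOpen_pos F τ, N, hN, e, ?_⟩
  rw [he p hpτ]
  change (p : V → ℝ) a = 0
  have h1 : ¬ 0 < (p : V → ℝ) a := fun h => haτ' ((hp a).1 h)
  exact le_antisymm (not_lt.1 h1) (p.2.1 a)

section two

variable (a b : V) (t : Fin 4 → V)

/-- the coordinates around an interior ridge -/
noncomputable def fB (p : V → ℝ) : EuclideanSpace ℝ (Fin 4) :=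
  !₂[p a - p b, p (t 1), p (t 2), p (t 3)]

/-- the inverse of the coordinates -/
noncomputable def gB (y : EuclideanSpace ℝ (Fin 4)) : V → ℝ :=
  Pi.single a (max (y 0) 0) + Pi.single b (max (-y 0) 0) + Pi.single (t 1) (y 1) +
    Pi.single (t 2) (y 2) + Pi.single (t 3) (y 3) + Pi.single (t 0) (1 - |y 0| - y 1 - y 2 - y 3)

omit [DecidableEq V] [Fintype V] in
theorem continuous_fB : Continuous (fB a b t) := by
  unfold fB
  apply (PiLp.continuous_toLp 2 _).comp
  apply continuous_pi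
  intro i
  fin_cases i <;> simp <;> fun_prop

omit [Fintype V] in
theorem continuous_gB : Continuous (gB a b t) := by
  unfold gB
  refine (((((continuous_single _ _ ?_).add (continuous_single _ _ ?_)).add
    (continuous_single _ _ ?_)).add (continuous_single _ _ ?_)).add (continuous_single _ _ ?_)).add
    (continuous_single _ _ ?_) <;>
  fun_prop

variable {a b t} (ht : Function.Injective t) (ha : ∀ i, t i ≠ a) (hb : ∀ i, t i ≠ b) (hab : a ≠ b)

include hab in
omit [Fintype V] in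
theorem gB_a (ha : ∀ i, t i ≠ a) (y : EuclideanSpace ℝ (Fin 4)) :
    gB a b t y a = max (y 0) 0 := by
  simp only [gB, Pi.add_apply, Pi.single_eq_same, Pi.single_eq_of_ne (ha _).symm,
    Pi.single_eq_of_ne hab]
  ring

include hab in
omit [Fintype V] in
theorem gB_b (hb : ∀ i, t i ≠ b) (y : EuclideanSpace ℝ (Fin 4)) :
    gB a b t y b = max (-y 0) 0 := by
  simp only [gB, Pi.add_apply, Pi.single_eq_same, Pi.single_eq_of_ne (hb _).symm,
    Pi.single_eq_of_ne hab.symm]
  ring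

include ht ha hb

omit [Fintype V] in
theorem gB_t (y : EuclideanSpace ℝ (Fin 4)) (i : Fin 4) : gB a b t y (t i) =
    if i = 0 then 1 - |y 0| - y 1 - y 2 - y 3 else y i := by
  have hne : ∀ i j : Fin 4, i ≠ j → ∀ c : ℝ, (Pi.single (t j) c : V → ℝ) (t i) = 0 :=
    fun i j hij c => by rw [Pi.single_eq_of_ne (ht.ne hij)]
  simp only [gB, Pi.add_apply, Pi.single_eq_of_ne (ha _), Pi.single_eq_of_ne (hb _)]
  fin_cases i
  · simp only [Fin.zero_eta, Pi.single_eq_same, if_true]
    rw [hne 0 1 (by decide), hne 0 2 (by decide), hne 0 3 (by decide)]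
    ring
  · simp only [Fin.mk_one, Pi.single_eq_same]
    rw [hne 1 2 (by decide), hne 1 3 (by decide), hne 1 0 (by decide), if_neg (by decide)]
    ring
  · simp only [Fin.reduceFinMk, Pi.single_eq_same]
    rw [hne 2 1 (by decide), hne 2 3 (by decide), hne 2 0 (by decide), if_neg (by decide)]
    ring
  · simp only [Fin.reduceFinMk, Pi.single_eq_same]
    rw [hne 3 1 (by decide), hne 3 2 (by decide), hne 3 0 (by decide), if_neg (by decide)]
    ring

omit ht ha hb [Fintype V] in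
theorem gB_ne (y : EuclideanSpace ℝ (Fin 4)) {v : V} (h1 : v ≠ a) (h2 : v ≠ b)
    (h3 : ∀ i, v ≠ t i) : gB a b t y v = 0 := by
  simp only [gB, Pi.add_apply, Pi.single_eq_of_ne h1, Pi.single_eq_of_ne h2,
    Pi.single_eq_of_ne (h3 _)]
  ring

omit ht ha hb in
theorem sum_gB (y : EuclideanSpace ℝ (Fin 4)) : ∑ v, gB a b t y v = 1 := by
  simp only [gB, Pi.add_apply, Finset.sum_add_distrib, Finset.sum_pi_single', Finset.mem_univ,
    if_true]
  rcases le_total 0 (y 0) with h | h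
  · rw [max_eq_left h, max_eq_right (by linarith), abs_of_nonneg h]
    ring
  · rw [max_eq_right h, max_eq_left (by linarith), abs_of_nonpos h]
    ring

include hab in
theorem eq_gB (p : V → ℝ) (hp : ∀ v, p v ≠ 0 → v = a ∨ v = b ∨ ∃ i, v = t i)
    (hs : ∑ v, p v = 1) (h0a : 0 ≤ p a) (h0b : 0 ≤ p b) (hpab : p a = 0 ∨ p b = 0) :
    gB a b t (fB a b t p) = p := by
  have h0 : fB a b t p 0 = p a - p b := rfl
  have h1 : fB a b t p 1 = p (t 1) := rfl
  have h2 : fB a b t p 2 = p (t 2) := rfl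
  have h3 : fB a b t p 3 = p (t 3) := rfl
  have hma : max (p a - p b) 0 = p a := by
    rcases hpab with h | h
    · rw [h, max_eq_right (by linarith)]
    · rw [h, sub_zero, max_eq_left h0a]
  have hmb : max (-(p a - p b)) 0 = p b := by
    rcases hpab with h | h
    · rw [h, zero_sub, neg_neg, max_eq_left h0b]
    · rw [h, max_eq_right (by linarith)]
  have habs : |p a - p b| = p a + p b := by
    rcases hpab with h | h
    · rw [h, zero_sub, abs_neg, abs_of_nonneg h0b, zero_add]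
    · rw [h, sub_zero, abs_of_nonneg h0a, add_zero]
  have hdec : p = Pi.single a (p a) + Pi.single b (p b) + Pi.single (t 1) (p (t 1)) +
      Pi.single (t 2) (p (t 2)) + Pi.single (t 3) (p (t 3)) + Pi.single (t 0) (p (t 0)) := by
    ext v
    by_cases hv : v = a ∨ v = b ∨ ∃ i, v = t i
    · rcases hv with rfl | rfl | ⟨i, rfl⟩
      · simp only [Pi.add_apply, Pi.single_eq_same, Pi.single_eq_of_ne (ha _).symm,
          Pi.single_eq_of_ne hab]
        ring
      · simp only [Pi.add_apply, Pi.single_eq_same, Pi.single_eq_of_ne (hb _).symm,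
          Pi.single_eq_of_ne hab.symm]
        ring
      · simp only [Pi.add_apply, Pi.single_eq_of_ne (ha _), Pi.single_eq_of_ne (hb _)]
        have hne : ∀ i j : Fin 4, i ≠ j → ∀ c : ℝ, (Pi.single (t j) c : V → ℝ) (t i) = 0 :=
          fun i j hij c => by rw [Pi.single_eq_of_ne (ht.ne hij)]
        fin_cases i
        · simp only [Fin.zero_eta, Pi.single_eq_same]
          rw [hne 0 1 (by decide), hne 0 2 (by decide), hne 0 3 (by decide)]
          ring
        · simp only [Fin.mk_one, Pi.single_eq_same]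
          rw [hne 1 2 (by decide), hne 1 3 (by decide), hne 1 0 (by decide)]
          ring
        · simp only [Fin.reduceFinMk, Pi.single_eq_same]
          rw [hne 2 1 (by decide), hne 2 3 (by decide), hne 2 0 (by decide)]
          ring
        · simp only [Fin.reduceFinMk, Pi.single_eq_same]
          rw [hne 3 1 (by decide), hne 3 2 (by decide), hne 3 0 (by decide)]
          ring
    · have h4 : p v = 0 := by
        by_contra h
        exact hv (hp v h)
      rw [not_or, not_or, not_exists] at hv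
      simp only [Pi.add_apply, Pi.single_eq_of_ne hv.1, Pi.single_eq_of_ne hv.2.1,
        Pi.single_eq_of_ne (hv.2.2 _), h4]
      ring
  have hsum : p a + p b + p (t 1) + p (t 2) + p (t 3) + p (t 0) = 1 := by
    rw [← hs]
    conv_rhs => rw [hdec]
    simp only [Pi.add_apply, Finset.sum_add_distrib, Finset.sum_pi_single', Finset.mem_univ,
      if_true]
  rw [gB, h0, h1, h2, h3, hma, hmb, habs]
  have h4 : 1 - (p a + p b) - p (t 1) - p (t 2) - p (t 3) = p (t 0) := by linarith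
  rw [h4]
  exact hdec.symm

end two

/-- (2) points in the interior of an interior ridge -/
theorem typeI_ridge (F : Finset (Finset V)) (hcard : ∀ σ ∈ F, σ.card = 5) (p : Space F)
    (τ : Finset V) (hτ : τ.card = 4) (σ₁ σ₂ : Finset V) (hσ₁ : σ₁ ∈ F) (hσ₂ : σ₂ ∈ F)
    (hne : σ₁ ≠ σ₂) (hτσ₁ : τ ⊆ σ₁) (hτσ₂ : τ ⊆ σ₂)
    (hPM : ∀ σ ∈ F, τ ⊆ σ → σ = σ₁ ∨ σ = σ₂) (hp : ∀ v ∈ τ, 0 < (p : V → ℝ) v) : TypeI p := by
  obtain ⟨t, ht, htτ⟩ := exists_enum τ hτ
  obtain ⟨a, haτ, hστa⟩ := exists_apex hτσ₁ hτ (hcard σ₁ hσ₁)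
  obtain ⟨b, hbτ, hστb⟩ := exists_apex hτσ₂ hτ (hcard σ₂ hσ₂)
  have hmemτ : ∀ v, v ∈ τ ↔ ∃ i, t i = v := by
    intro v
    rw [← htτ, Finset.mem_image]
    simp
  have ha : ∀ i, t i ≠ a := fun i hi => haτ ((hmemτ a).2 ⟨i, hi⟩)
  have hb : ∀ i, t i ≠ b := fun i hi => hbτ ((hmemτ b).2 ⟨i, hi⟩)
  have hab : a ≠ b := by
    rintro rfl
    exact hne (hστa.trans hστb.symm)
  let B : Set (EuclideanSpace ℝ (Fin 4)) :=
    {y | 0 < y 1 ∧ 0 < y 2 ∧ 0 < y 3 ∧ 0 < 1 - |y 0| - y 1 - y 2 - y 3}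
  have hB : IsOpen B := by
    exact (isOpen_lt0 (fun y => y 1) (by fun_prop)).and
      ((isOpen_lt0 (fun y => y 2) (by fun_prop)).and ((isOpen_lt0 (fun y => y 3) (by fun_prop)).and
      (isOpen_lt0 (fun y => 1 - |y 0| - y 1 - y 2 - y 3) (by fun_prop))))
  -- supports
  have hsupp : ∀ q : Space F, (∀ v ∈ τ, 0 < (q : V → ℝ) v) →
      (∀ v, (q : V → ℝ) v ≠ 0 → v ∈ insert a τ) ∨ (∀ v, (q : V → ℝ) v ≠ 0 → v ∈ insert b τ) := by
    intro q hq
    obtain ⟨σ', hσ', hs⟩ := supp_subset q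
    have h1 : τ ⊆ σ' := fun w hw => hs w (hq w hw).ne'
    rcases hPM σ' hσ' h1 with h2 | h2
    · left
      intro v hv
      rw [← hστa, ← h2]
      exact hs v hv
    · right
      intro v hv
      rw [← hστb, ← h2]
      exact hs v hv
  have hsupp1 : ∀ q : Space F, (∀ v ∈ τ, 0 < (q : V → ℝ) v) → ∀ v, (q : V → ℝ) v ≠ 0 →
      v = a ∨ v = b ∨ ∃ i, v = t i := by
    intro q hq v hv
    rcases hsupp q hq with h | h
    · have := h v hv
      rw [Finset.mem_insert, hmemτ] at this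
      rcases this with h' | ⟨i, h'⟩
      · exact Or.inl h'
      · exact Or.inr (Or.inr ⟨i, h'.symm⟩)
    · have := h v hv
      rw [Finset.mem_insert, hmemτ] at this
      rcases this with h' | ⟨i, h'⟩
      · exact Or.inr (Or.inl h')
      · exact Or.inr (Or.inr ⟨i, h'.symm⟩)
  have hsupp2 : ∀ q : Space F, (∀ v ∈ τ, 0 < (q : V → ℝ) v) →
      (q : V → ℝ) a = 0 ∨ (q : V → ℝ) b = 0 := by
    intro q hq
    rcases hsupp q hq with h | h
    · right
      by_contra hc
      have := h b hc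
      rw [Finset.mem_insert] at this
      rcases this with h' | h'
      · exact hab h'.symm
      · exact hbτ h'
    · left
      by_contra hc
      have := h a hc
      rw [Finset.mem_insert] at this
      rcases this with h' | h'
      · exact hab h'
      · exact haτ h'
  have heq : ∀ q : Space F, (∀ v ∈ τ, 0 < (q : V → ℝ) v) → gB a b t (fB a b t q) = q :=
    fun q hq => eq_gB ht ha hb hab _ (hsupp1 q hq) q.2.2.1 (q.2.1 a) (q.2.1 b) (hsupp2 q hq)
  have hnn : ∀ z ∈ B, ∀ v, 0 ≤ gB a b t z v := by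
    rintro z ⟨h1, h2, h3, h4⟩ v
    by_cases hva : v = a
    · rw [hva, gB_a hab ha]; exact le_max_right _ _
    by_cases hvb : v = b
    · rw [hvb, gB_b hab hb]; exact le_max_right _ _
    by_cases hvt : ∃ i, v = t i
    · obtain ⟨i, rfl⟩ := hvt
      rw [gB_t ht ha hb]
      split_ifs with hi
      · exact h4.le
      · fin_cases i
        · exact absurd rfl hi
        · exact h1.le
        · exact h2.le
        · exact h3.le
    · rw [gB_ne z hva hvb (fun i h => hvt ⟨i, h⟩)]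
  have hga : ∀ z ∈ B, gB a b t z ∈ Space F := by
    intro z hz
    refine ⟨hnn z hz, sum_gB z, ?_⟩
    rcases le_total 0 (z 0) with h | h
    · refine ⟨σ₁, hσ₁, fun v hv => ?_⟩
      by_contra hvσ
      rw [hστa, Finset.mem_insert, hmemτ, not_or, not_exists] at hvσ
      apply hv
      by_cases hvb : v = b
      · rw [hvb, gB_b hab hb, max_eq_right (by linarith)]
      · exact gB_ne z hvσ.1 hvb (fun i hi => hvσ.2 i hi.symm)
    · refine ⟨σ₂, hσ₂, fun v hv => ?_⟩
      by_contra hvσ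
      rw [hστb, Finset.mem_insert, hmemτ, not_or, not_exists] at hvσ
      apply hv
      by_cases hva : v = a
      · rw [hva, gB_a hab ha, max_eq_right h]
      · exact gB_ne z hva hvσ.1 (fun i hi => hvσ.2 i hi.symm)
  obtain ⟨e, -⟩ := mkHomeo (Space F) {q : Space F | ∀ v ∈ τ, 0 < (q : V → ℝ) v} B (fB a b t)
    (gB a b t) (continuous_fB a b t) (continuous_gB a b t) (by
      intro q hq
      have hs := heq q hq
      have hpos : ∀ i, 0 < (q : V → ℝ) (t i) := fun i => hq _ ((hmemτ _).2 ⟨i, rfl⟩)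
      refine ⟨hpos 1, hpos 2, hpos 3, ?_⟩
      have h1 := gB_t ht ha hb (fB a b t q) 0
      rw [hs, if_pos rfl] at h1
      rw [← h1]
      exact hpos 0) hga (by
      rintro z ⟨h1, h2, h3, h4⟩ v hv
      change 0 < gB a b t z v
      obtain ⟨i, rfl⟩ := (hmemτ v).1 hv
      rw [gB_t ht ha hb]
      split_ifs with hi
      · exact h4
      · fin_cases i
        · exact absurd rfl hi
        · exact h1
        · exact h2
        · exact h3) heq (by
      rintro z -
      ext i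
      fin_cases i
      · change gB a b t z a - gB a b t z b = z 0
        rw [gB_a hab ha, gB_b hab hb]
        rcases le_total 0 (z 0) with h | h
        · rw [max_eq_left h, max_eq_right (by linarith)]
          ring
        · rw [max_eq_right h, max_eq_left (by linarith)]
          ring
      · change gB a b t z (t 1) = z 1
        rw [gB_t ht ha hb, if_neg (by decide)]
      · change gB a b t z (t 2) = z 2
        rw [gB_t ht ha hb, if_neg (by decide)]
      · change gB a b t z (t 3) = z 3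
        rw [gB_t ht ha hb, if_neg (by decide)])
  exact ⟨_, isOpen_pos F τ, hp, B, hB, ⟨e⟩⟩

end Pool.Agent.Helper26.LC
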