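import Pool.Agent.Helper47.LC.LCT1c

/-!
# LC-T1: the boundary of the manifold corresponds to the boundary complex
-/

set_option autoImplicit false

namespace Pool.Agent.Helper26.LC

open scoped Manifold

variable {V : Type*} [DecidableEq V] [Fintype V]

/-- the support of a point -/
noncomputable def sup (p : V → ℝ) : Finset V := open Classical in Finset.univ.filter fun v => p v ≠ 0

omit [DecidableEq V] in
theorem mem_sup (p : V → ℝ) (v : V) : v ∈ sup p ↔ p v ≠ 0 := by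
  classical
  unfold sup
  rw [Finset.mem_filter]
  simp

theorem mem_bd (F : Finset (Finset V)) (τ : Finset V) :
    τ ∈ bd 4 F ↔ τ.card = 4 ∧ ∃! σ, σ ∈ F ∧ τ ⊆ σ := by
  classical
  unfold bd
  rw [Finset.mem_filter, Finset.mem_biUnion]
  constructor
  · rintro ⟨⟨σ, hσ, h1⟩, h2⟩
    exact ⟨(Finset.mem_powersetCard.1 h1).2, h2⟩
  · rintro ⟨h1, h2⟩
    have h2' := h2
    obtain ⟨σ, ⟨hσ, hτσ⟩, -⟩ := h2'
    exact ⟨⟨σ, hσ, Finset.mem_powersetCard.2 ⟨hτσ, h1⟩⟩, h2⟩

/-- points whose support has at least four elements have a type -/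
theorem typeI_or (F : Finset (Finset V)) (hcard : ∀ σ ∈ F, σ.card = 5)
    (hPM : ∀ τ : Finset V, τ.card = 4 → ∀ σ₁ ∈ F, ∀ σ₂ ∈ F, ∀ σ₃ ∈ F, τ ⊆ σ₁ → τ ⊆ σ₂ → τ ⊆ σ₃ →
      σ₁ = σ₂ ∨ σ₁ = σ₃ ∨ σ₂ = σ₃) (p : Space F) :
    TypeI p ∨ (p : V → ℝ) ∈ Space (bd 4 F) ∨
      ∃ s : Finset V, s.card = 3 ∧ ∀ v, (p : V → ℝ) v ≠ 0 → v ∈ s := by
  obtain ⟨σ, hσ, hs⟩ := supp_subset p
  have hsub : sup (p : V → ℝ) ⊆ σ := fun v hv => hs v ((mem_sup _ _).1 hv)
  have hcσ := hcard σ hσ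
  have hle := Finset.card_le_card hsub
  have hpos : ∀ v ∈ sup (p : V → ℝ), 0 < (p : V → ℝ) v := fun v hv =>
    lt_of_le_of_ne (p.2.1 v) (Ne.symm ((mem_sup _ _).1 hv))
  by_cases h3 : (sup (p : V → ℝ)).card ≤ 3
  · right; right
    obtain ⟨s, hs1, hs2, hs3⟩ := Finset.exists_subsuperset_card_eq hsub h3 (by omega)
    exact ⟨s, hs3, fun v hv => hs1 ((mem_sup _ _).2 hv)⟩
  by_cases h5 : (sup (p : V → ℝ)).card = 5
  · left
    have h6 : sup (p : V → ℝ) = σ := Finset.eq_of_subset_of_card_le hsub (by omega)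
    exact typeI_facet F hcard p σ hσ (by rw [← h6]; exact hpos)
  have h4 : (sup (p : V → ℝ)).card = 4 := by omega
  by_cases hbd : sup (p : V → ℝ) ∈ bd 4 F
  · right; left
    exact ⟨p.2.1, p.2.2.1, _, hbd, fun v hv => (mem_sup _ _).2 hv⟩
  · left
    rw [mem_bd, not_and] at hbd
    have h6 := hbd h4
    obtain ⟨σ₂, hσ₂, hne, hsub₂⟩ : ∃ σ₂ ∈ F, σ₂ ≠ σ ∧ sup (p : V → ℝ) ⊆ σ₂ := by
      by_contra hcon
      push Not at hcon
      apply h6
      refine ⟨σ, ⟨hσ, hsub⟩, ?_⟩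
      rintro σ' ⟨h7, h8⟩
      by_contra h9
      exact hcon σ' h7 h9 h8
    refine typeI_ridge F hcard p (sup (p : V → ℝ)) h4 σ σ₂ hσ hσ₂ hne.symm hsub hsub₂ ?_ hpos
    intro σ' hσ' hsub'
    rcases hPM _ h4 σ hσ σ₂ hσ₂ σ' hσ' hsub hsub₂ hsub' with h7 | h7 | h7
    · exact absurd h7.symm hne
    · exact Or.inl h7.symm
    · exact Or.inr h7.symm

/-- (4) points of the boundary complex are limits of points of type B -/
theorem not_typeI_bd (hno : NoHalf) (F : Finset (Finset V)) (hcard : ∀ σ ∈ F, σ.card = 5)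
    (p : Space F) (hp : (p : V → ℝ) ∈ Space (bd 4 F)) : ¬ TypeI p := by
  intro hI
  obtain ⟨U, hU, hpU, hUI⟩ := typeI_open hI
  obtain ⟨h0, h1, τ, hτ, hs⟩ := hp
  rw [mem_bd] at hτ
  obtain ⟨h4, σ, ⟨hσ, hτσ⟩, huniq⟩ := hτ
  -- the segment to the barycentre
  let c : V → ℝ := fun v => if v ∈ τ then 1 / 4 else 0
  have hc : ∑ v, c v = 1 := by
    simp only [c]
    rw [Finset.sum_ite_mem, Finset.univ_inter, Finset.sum_const, h4]
    norm_num
  let q : ℝ → V → ℝ := fun s v => (1 - s) * (p : V → ℝ) v + s * c v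
  have hq : ∀ s, 0 ≤ s → s ≤ 1 → q s ∈ Space F := by
    intro s hs0 hs1
    refine ⟨fun v => ?_, ?_, σ, hσ, fun v hv => ?_⟩
    · have h5 : 0 ≤ c v := by
        simp only [c]
        split_ifs <;> norm_num
      have := h0 v
      have h6 : 0 ≤ 1 - s := by linarith
      simp only [q]
      positivity
    · simp only [q]
      rw [Finset.sum_add_distrib, ← Finset.mul_sum, ← Finset.mul_sum, h1, hc]
      ring
    · by_contra hvσ
      apply hv
      have hvτ : v ∉ τ := fun h => hvσ (hτσ h)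
      have h5 : (p : V → ℝ) v = 0 := by
        by_contra h
        exact hvτ (hs v h)
      simp only [q, c]
      rw [h5, if_neg hvτ]
      ring
  let r : Set.Icc (0:ℝ) 1 → Space F := fun s => ⟨q s, hq s s.2.1 s.2.2⟩
  have hr : Continuous r := by
    apply Continuous.subtype_mk
    apply continuous_pi
    intro v
    simp only [q]
    fun_prop
  have hr0 : r ⟨0, by norm_num, by norm_num⟩ = p := by
    apply Subtype.ext
    funext v
    change (1 - 0) * (p : V → ℝ) v + 0 * c v = _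
    ring
  have hopen : IsOpen (r ⁻¹' U) := hU.preimage hr
  have hmem : (⟨0, by norm_num, by norm_num⟩ : Set.Icc (0:ℝ) 1) ∈ r ⁻¹' U := by
    change r _ ∈ U
    rw [hr0]
    exact hpU
  obtain ⟨ε, hε, hball⟩ := Metric.isOpen_iff.1 hopen _ hmem
  let s : Set.Icc (0:ℝ) 1 := ⟨min (ε / 2) 1, le_min (by linarith) zero_le_one, min_le_right _ _⟩
  have hspos : 0 < (s : ℝ) := lt_min (by linarith) one_pos
  have hsU : r s ∈ U := by
    apply hball
    rw [Metric.mem_ball, Subtype.dist_eq, Real.dist_eq]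
    change |(s : ℝ) - 0| < ε
    rw [sub_zero, abs_of_pos hspos]
    calc (s : ℝ) ≤ ε / 2 := min_le_left _ _
      _ < ε := by linarith
  refine not_typeI_of_typeB hno (hUI _ hsU) (typeB_ridge F hcard (r s) τ h4 σ hσ hτσ
    (fun σ' h5 h6 => huniq σ' ⟨h5, h6⟩) ?_)
  intro v
  change 0 < (1 - (s : ℝ)) * (p : V → ℝ) v + s * c v ↔ v ∈ τ
  have hs1 : 0 ≤ 1 - (s : ℝ) := by linarith [s.2.2]
  constructor
  · intro h
    by_contra hvτ
    have h5 : (p : V → ℝ) v = 0 := by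
      by_contra h
      exact hvτ (hs v h)
    rw [h5] at h
    simp only [c] at h
    rw [if_neg hvτ] at h
    linarith
  · intro hv
    have h5 : c v = 1 / 4 := by simp only [c]; rw [if_pos hv]
    rw [h5]
    have := h0 v
    positivity

/-- the complement of a subcomplex is open -/
theorem isClosed_space (F G : Finset (Finset V)) :
    IsClosed {p : Space F | (p : V → ℝ) ∈ Space G} := by
  have h1 : {p : Space F | (p : V → ℝ) ∈ Space G} =
      ⋃ σ ∈ G, ⋂ v ∈ (σᶜ : Finset V), {p : Space F | (p : V → ℝ) v = 0} := by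
    ext p
    simp only [Set.mem_ofPred_eq, Set.mem_iUnion, Set.mem_iInter, Finset.mem_compl]
    constructor
    · rintro ⟨-, -, σ, hσ, hs⟩
      refine ⟨σ, hσ, fun v hv => ?_⟩
      by_contra h
      exact hv (hs v h)
    · rintro ⟨σ, hσ, hs⟩
      refine ⟨p.2.1, p.2.2.1, σ, hσ, fun v hv => ?_⟩
      by_contra h
      exact hv (hs v h)
  rw [h1]
  apply isClosed_biUnion_finset
  intro σ _
  apply isClosed_biInter
  intro v _
  exact isClosed_eq ((continuous_apply v).comp continuous_subtype_val) continuous_const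

/-- (5) points outside of the boundary complex are not of type B -/
theorem not_typeB (hno : NoHalf) (hinj : NoInj) (F : Finset (Finset V))
    (hcard : ∀ σ ∈ F, σ.card = 5)
    (hPM : ∀ τ : Finset V, τ.card = 4 → ∀ σ₁ ∈ F, ∀ σ₂ ∈ F, ∀ σ₃ ∈ F, τ ⊆ σ₁ → τ ⊆ σ₂ → τ ⊆ σ₃ →
      σ₁ = σ₂ ∨ σ₁ = σ₃ ∨ σ₂ = σ₃) (p : Space F) (hp : (p : V → ℝ) ∉ Space (bd 4 F)) :
    ¬ TypeB p := by
  rintro ⟨U, hpU, hU, N, hN, e, he⟩
  let C : Set (Space F) := {p : Space F | (p : V → ℝ) ∈ Space (bd 4 F)}ᶜ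
  have hC : IsOpen C := (isClosed_space F (bd 4 F)).isOpen_compl
  obtain ⟨N2, hN2, e2, he2⟩ := shrink U _ e C hC
  -- the flat piece of the boundary
  let j : EuclideanSpace ℝ (Fin 3) → EuclideanSpace ℝ (Fin 4) := fun z => !₂[0, z 0, z 1, z 2]
  have hj : Continuous j := by
    apply (PiLp.continuous_toLp 2 _).comp
    apply continuous_pi
    intro i
    fin_cases i <;> simp <;> fun_prop
  let D : Set (EuclideanSpace ℝ (Fin 3)) := j ⁻¹' (N ∩ N2)
  have hD : IsOpen D := (hN.inter hN2).preimage hj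
  have hjD : ∀ z ∈ D, j z ∈ ((N ∩ {x | 0 ≤ x 0}) ∩ N2 : Set (EuclideanSpace ℝ (Fin 4))) :=
    fun z hz => ⟨⟨hz.1, le_refl (0:ℝ)⟩, hz.2⟩
  -- the embedding
  let ι : D → Space F := fun z => (e2.symm ⟨j z, hjD z z.2⟩ : (U ∩ C : Set (Space F)))
  have hι : Continuous ι := by
    apply continuous_subtype_val.comp
    apply e2.symm.continuous.comp
    apply Continuous.subtype_mk
    exact hj.comp continuous_subtype_val
  have hιinj : Function.Injective ι := by
    intro z w hzw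
    have h1 := e2.symm.injective (Subtype.ext hzw)
    have h2 : j z = j w := congrArg Subtype.val h1
    apply Subtype.ext
    ext i
    fin_cases i
    · exact congrArg (fun x : EuclideanSpace ℝ (Fin 4) => x 1) h2
    · exact congrArg (fun x : EuclideanSpace ℝ (Fin 4) => x 2) h2
    · exact congrArg (fun x : EuclideanSpace ℝ (Fin 4) => x 3) h2
  have hιC : ∀ z, ι z ∈ C := fun z => (e2.symm ⟨j z, hjD z z.2⟩).2.2
  have hιU : ∀ z, ι z ∈ U := fun z => (e2.symm ⟨j z, hjD z z.2⟩).2.1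
  have hιB : ∀ z, TypeB (ι z) := by
    intro z
    refine ⟨U, hιU z, hU, N, hN, e, ?_⟩
    rw [← he2 (ι z) ⟨hιU z, hιC z⟩]
    have h1 : e2 ⟨ι z, hιU z, hιC z⟩ = ⟨j z, hjD z z.2⟩ := by
      have : (⟨ι z, hιU z, hιC z⟩ : (U ∩ C : Set (Space F))) = e2.symm ⟨j z, hjD z z.2⟩ :=
        Subtype.ext rfl
      rw [this, Homeomorph.apply_symm_apply]
    rw [h1]
    rfl
  have hsupp : ∀ z, ∃ s : Finset V, s.card = 3 ∧ ∀ v, (ι z : V → ℝ) v ≠ 0 → v ∈ s := by
    intro z
    rcases typeI_or F hcard hPM (ι z) with h | h | h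
    · exact (not_typeI_of_typeB hno h (hιB z)).elim
    · exact absurd h (hιC z)
    · exact h
  -- nonempty
  have hDne : D.Nonempty := by
    set x : EuclideanSpace ℝ (Fin 4) :=
      ((e ⟨p, hpU⟩ : (N ∩ {x | 0 ≤ x 0} : Set (EuclideanSpace ℝ (Fin 4)))) :
        EuclideanSpace ℝ (Fin 4)) with hx
    have hpC : p ∈ C := hp
    have hxN : x ∈ N := (e ⟨p, hpU⟩).2.1
    have hxN2 : x ∈ N2 := by
      rw [hx, ← he2 p ⟨hpU, hpC⟩]
      exact (e2 ⟨p, hpU, hpC⟩).2.2
    refine ⟨!₂[x 1, x 2, x 3], ?_⟩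
    have h1 : j (!₂[x 1, x 2, x 3]) = x := by
      ext i
      fin_cases i
      · exact he.symm
      · rfl
      · rfl
      · rfl
    change j _ ∈ N ∩ N2
    rw [h1]
    exact ⟨hxN, hxN2⟩
  -- finite closed cover
  haveI : BaireSpace D := hD.baireSpace
  haveI : Nonempty D := hDne.to_subtype
  let T := {s : Finset V // s.card = 3}
  let f : T → Set D := fun s => {z | ∀ v, (ι z : V → ℝ) v ≠ 0 → v ∈ s.1}
  have hf : ∀ s, IsClosed (f s) := by
    intro s
    have h1 : f s = ⋂ v ∈ (s.1ᶜ : Finset V), {z | (ι z : V → ℝ) v = 0} := by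
      ext z
      simp only [f, Set.mem_ofPred_eq, Set.mem_iInter, Finset.mem_compl]
      constructor
      · intro h v hv
        by_contra h'
        exact hv (h v h')
      · intro h v hv
        by_contra h'
        exact hv (h v h')
    rw [h1]
    apply isClosed_biInter
    intro v _
    exact isClosed_eq ((continuous_apply v).comp (continuous_subtype_val.comp hι)) continuous_const
  have hcover : ⋃ s, f s = Set.univ := by
    rw [Set.eq_univ_iff_forall]
    intro z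
    obtain ⟨s, hs, hs'⟩ := hsupp z
    exact Set.mem_iUnion.2 ⟨⟨s, hs⟩, hs'⟩
  obtain ⟨⟨s, hs3⟩, hs⟩ := nonempty_interior_of_iUnion_of_closed hf hcover
  -- an open subset of the flat piece
  obtain ⟨O, hO, hOs⟩ := isOpen_induced_iff.1 (isOpen_interior (s := f ⟨s, hs3⟩))
  have hmem : ∀ z : D, (z : EuclideanSpace ℝ (Fin 3)) ∈ O ↔ z ∈ interior (f ⟨s, hs3⟩) :=
    fun z => Set.ext_iff.1 hOs z
  obtain ⟨a, b, c, hab, hac, hbc, rfl⟩ := Finset.card_eq_three.1 hs3
  let g : EuclideanSpace ℝ (Fin 3) → EuclideanSpace ℝ (Fin 2) := fun z =>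
    open Classical in if hz : z ∈ D then !₂[(ι ⟨z, hz⟩ : V → ℝ) a, (ι ⟨z, hz⟩ : V → ℝ) b] else 0
  have hg : ∀ (z) (hz : z ∈ D), g z = !₂[(ι ⟨z, hz⟩ : V → ℝ) a, (ι ⟨z, hz⟩ : V → ℝ) b] := by
    intro z hz
    simp only [g]
    rw [dif_pos hz]
  refine hinj (O ∩ D) (hO.inter hD) ?_ g ?_ ?_
  · obtain ⟨z, hz⟩ := hs
    exact ⟨z, (hmem z).2 hz, z.2⟩
  · refine ContinuousOn.mono ?_ Set.inter_subset_right
    rw [continuousOn_iff_continuous_domRestrict]
    have h1 : D.domRestrict g = fun z : D => !₂[(ι z : V → ℝ) a, (ι z : V → ℝ) b] := by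
      funext z
      exact hg z z.2
    rw [h1]
    apply (PiLp.continuous_toLp 2 _).comp
    apply continuous_pi
    intro i
    fin_cases i
    · exact (continuous_apply a).comp (continuous_subtype_val.comp hι)
    · exact (continuous_apply b).comp (continuous_subtype_val.comp hι)
  · rintro z ⟨hzO, hzD⟩ w ⟨hwO, hwD⟩ hzw
    rw [hg z hzD, hg w hwD] at hzw
    have h1 : (ι ⟨z, hzD⟩ : V → ℝ) a = (ι ⟨w, hwD⟩ : V → ℝ) a :=
      congrArg (fun x : EuclideanSpace ℝ (Fin 2) => x 0) hzw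
    have h2 : (ι ⟨z, hzD⟩ : V → ℝ) b = (ι ⟨w, hwD⟩ : V → ℝ) b :=
      congrArg (fun x : EuclideanSpace ℝ (Fin 2) => x 1) hzw
    have hzf : (⟨z, hzD⟩ : D) ∈ f ⟨{a, b, c}, hs3⟩ := interior_subset ((hmem _).1 hzO)
    have hwf : (⟨w, hwD⟩ : D) ∈ f ⟨{a, b, c}, hs3⟩ := interior_subset ((hmem _).1 hwO)
    have hsum : ∀ x : D, x ∈ f ⟨{a, b, c}, hs3⟩ →
        (ι x : V → ℝ) a + (ι x : V → ℝ) b + (ι x : V → ℝ) c = 1 := by
      intro x hx
      rw [← (ι x).2.2.1]
      have h3 : ∑ v, (ι x : V → ℝ) v = ∑ v ∈ ({a, b, c} : Finset V), (ι x : V → ℝ) v := by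
        symm
        apply Finset.sum_subset (Finset.subset_univ _)
        intro v _ hv
        by_contra h
        exact hv (hx v h)
      rw [h3, Finset.sum_insert (by simp [hab, hac]), Finset.sum_insert (by simp [hbc]),
        Finset.sum_singleton]
      ring
    have h3 : (ι ⟨z, hzD⟩ : V → ℝ) c = (ι ⟨w, hwD⟩ : V → ℝ) c := by
      have := hsum _ hzf
      have := hsum _ hwf
      linarith
    have h4 : ι ⟨z, hzD⟩ = ι ⟨w, hwD⟩ := by
      apply Subtype.ext
      funext v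
      by_cases hv : v ∈ ({a, b, c} : Finset V)
      · simp only [Finset.mem_insert, Finset.mem_singleton] at hv
        rcases hv with rfl | rfl | rfl
        · exact h1
        · exact h2
        · exact h3
      · have h5 : (ι ⟨z, hzD⟩ : V → ℝ) v = 0 := by
          by_contra h
          exact hv (hzf v h)
        have h6 : (ι ⟨w, hwD⟩ : V → ℝ) v = 0 := by
          by_contra h
          exact hv (hwf v h)
        rw [h5, h6]
    exact congrArg Subtype.val (hιinj h4)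

/-- T1 -/
theorem boundary_eq_aux (hno : NoHalf) (hinj : NoInj) {W : Type*} [TopologicalSpace W]
    [ChartedSpace (EuclideanHalfSpace 4) W]
    (F : Finset (Finset V)) (hcard : ∀ σ ∈ F, σ.card = 5)
    (hPM : ∀ τ : Finset V, τ.card = 4 → ∀ σ₁ ∈ F, ∀ σ₂ ∈ F, ∀ σ₃ ∈ F, τ ⊆ σ₁ → τ ⊆ σ₂ → τ ⊆ σ₃ →
      σ₁ = σ₂ ∨ σ₁ = σ₃ ∨ σ₂ = σ₃)
    (h : Space F ≃ₜ W) (p : Space F) :
    (p : V → ℝ) ∈ Space (bd 4 F) ↔ (𝓡∂ 4).IsBoundaryPoint (h p) := by
  constructor
  · intro hp
    rcases (𝓡∂ 4).isInteriorPoint_or_isBoundaryPoint (h p) with h1 | h1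
    · exfalso
      have h2 := (typeI_of_interior h1).map h.symm
      rw [Homeomorph.symm_apply_apply] at h2
      exact not_typeI_bd hno F hcard p hp h2
    · exact h1
  · intro hb
    by_contra hp
    have h2 := (typeB_of_boundary hb).map h.symm
    rw [Homeomorph.symm_apply_apply] at h2
    exact not_typeB hno hinj F hcard hPM p hp h2

end Pool.Agent.Helper26.LC
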