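import Pool.Agent.Helper47.LC.LCT1d
import Pool.Agent.Helper95.LCT0

/-!
# LC-T1: the boundary of the manifold corresponds to the boundary complex
-/

set_option autoImplicit false

namespace Pool.Agent.Helper26.LC

open scoped Manifold

variable {V : Type*} [DecidableEq V] [Fintype V]

/-- T1 -/
theorem boundary_eq {W : Type*} [TopologicalSpace W] [ChartedSpace (EuclideanHalfSpace 4) W]
    (F : Finset (Finset V)) (hcard : ∀ σ ∈ F, σ.card = 5)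
    (hPM : ∀ τ : Finset V, τ.card = 4 → ∀ σ₁ ∈ F, ∀ σ₂ ∈ F, ∀ σ₃ ∈ F, τ ⊆ σ₁ → τ ⊆ σ₂ → τ ⊆ σ₃ →
      σ₁ = σ₂ ∨ σ₁ = σ₃ ∨ σ₂ = σ₃)
    (h : Space F ≃ₜ W) (p : Space F) :
    (p : V → ℝ) ∈ Space (bd 4 F) ↔ (𝓡∂ 4).IsBoundaryPoint (h p) :=
  boundary_eq_aux no_half no_inj F hcard hPM h p

end Pool.Agent.Helper26.LC
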